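import Pool.Agent.N179.SP.Lin

/-!
# Representations which are separated by elements of the group: the theorem
-/

set_option autoImplicit false
set_option linter.unusedSectionVars false

open CategoryTheory AlgebraicGeometry

universe u

namespace Pool.Agent.N179.SP

open Module Pool.Agent.TH125.Gal Pool.Agent.N179.GR Pool.Agent.N179.GR.S

open Pool.Agent.H914 Pool.Agent.H914.VarClass Pool.Agent.H914.VarClass.Obj
  Pool.Agent.H914.WeilCohomology Pool.Agent.W552 Pool.Agent.H281R3.HT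

variable {k : Type u} [Field k] {𝒱 : VarClass k} {ops : CycleOps 𝒱}
  {W : WeilCohomology.{u, 0} ops} {Γ : Type} [Group Γ]

section tower

variable {ι : Type} {V : ι → GRep W.K Γ} {Z : GVar W Γ} {L : List (ι × GVar W Γ)} {Y : GVar W Γ}

theorem tower_spl {m : ℕ} {U : Fin m → GRep W.K Γ} (hZ : GeneratedBy U Z)
    (hY : S.Tower V Z L Y) {i : ι} (hi : ∀ a, Spl (fl (V i)) {fl (U a)})
    (hL : ∀ x ∈ L, Spl (fl (V i)) {fl (V x.1)}) :
    Spl (fl (V i)) {full (W.H Y.X) (algR Y.act)} := by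
  classical
  have h1 : Spl (fl (V i)) (⋃ a ∈ (Finset.univ : Finset (Fin m)), {fl (U a)}) :=
    Spl.iUnion Finset.univ (fun a => {fl (U a)}) fun a _ => hi a
  have h2 : Spl (fl (V i)) (⋃ j ∈ (L.map Prod.fst).toFinset, {fl (V j)}) :=
    Spl.iUnion _ (fun j => {fl (V j)}) fun j hj => by
      obtain ⟨x, hx, rfl⟩ := List.mem_map.1 (List.mem_toFinset.1 hj)
      exact hL x hx
  refine (h1.union h2).detect1 fun D hD h0 N hN => ?_
  rw [Set.mem_singleton_iff.1 hN]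
  refine tower_kill hZ hY hD (fun a => h0 _ (Or.inl ?_)) fun x hx => h0 _ (Or.inr ?_)
  · exact Set.mem_iUnion₂.2 ⟨a, Finset.mem_univ a, rfl⟩
  · exact Set.mem_iUnion₂.2 ⟨x.1, List.mem_toFinset.2 (List.mem_map.2 ⟨x, hx, rfl⟩), rfl⟩

/-- the slices of semi-invariant classes are combinations of semi-invariant classes -/
theorem slices [IsAlgClosed W.K] {m : ℕ} {U : Fin m → GRep W.K Γ}
    (hZ : GeneratedBy U Z) (hY : S.Tower V Z L Y) {i : ι} (hi : ∀ a, Spl (fl (V i)) {fl (U a)})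
    (hL : ∀ x ∈ L, Spl (fl (V i)) {fl (V x.1)}) {P : GVar W Γ} {υ : Acts P Y}
    (hP : OfType (V i) P) (hυ : ProdAct P Y υ) {z : W.H (P.X.prod Y.X)}
    (hz : (full (W.H (P.X.prod Y.X)) (algR υ)).Eig z) (ψ : W.H Y.X →ₗ[W.K] W.K) :
    ctr2 ψ z ∈ Submodule.span W.K {y | (full (W.H P.X) (algR P.act)).Eig y} := by
  obtain ⟨k, hk⟩ := slice_mem hυ.1 hυ.2 (gen_of hP.1) (tower_spl hZ hY hi hL)
  exact inv_le (semiS_coh hP.2) k (hk z hz ψ)

theorem tower_tate [IsAlgClosed W.K] {χ : Γ →* W.Kˣ} {m : ℕ} {E : Set ι}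
    {U : Fin m → GRep W.K Γ} (hU : ∀ i ∉ E, ∀ a, Spl (fl (V i)) {fl (U a)})
    (hV : ∀ i ∉ E, ∀ j ∉ E, j ≠ i → Spl (fl (V i)) {fl (V j)})
    (hZ : GeneratedBy U Z) (hpt : HasPoint Z) (hY : S.Tower V Z L Y) :
    (∀ x ∈ L, x.1 ∉ E ∧ Twisted χ x.2 ∧ HasPoint x.2) →
    (TateConjecture χ Y ↔ TateConjecture χ Z ∧ ∀ x ∈ L, TateConjecture χ x.2) := by
  induction hY with
  | base => exact fun _ => ⟨fun h => ⟨h, by simp⟩, fun h => h.1⟩
  | @step L Y i P υ hT hi hP hυ ih =>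
    intro hL
    have hL' : ∀ x ∈ L, x.1 ∉ E ∧ Twisted χ x.2 ∧ HasPoint x.2 :=
      fun x hx => hL x (List.mem_cons_of_mem _ hx)
    have hPL := hL (i, P) List.mem_cons_self
    constructor
    · intro h
      have hYp : HasPoint Y := tower_point hT hpt fun x hx => (hL' x hx).2.2
      have h1 : TateConjecture χ Y := tate_snd hυ.2 hPL.2.2 h
      have h2 : TateConjecture χ P := tate_fst hυ.1 hYp h
      obtain ⟨h3, h4⟩ := (ih hL').1 h1
      refine ⟨h3, fun x hx => ?_⟩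
      rcases List.mem_cons.1 hx with rfl | hx
      · exact h2
      · exact h4 x hx
    · rintro ⟨h3, h4⟩
      have h1 : TateConjecture χ Y := (ih hL').2 ⟨h3, fun x hx => h4 x (List.mem_cons_of_mem _ hx)⟩
      have h2 : TateConjecture χ P := h4 (i, P) List.mem_cons_self
      rintro j z hzj ⟨Δ, hΔ, hz⟩
      refine tate_step hυ.1 hυ.2 h2 h1 hzj hΔ hz fun ψ => ?_
      have h5 := slices hZ hT (i := i) (hU i hPL.1)
        (fun x hx => hV i hPL.1 x.1 (hL' x hx).1 (hi x hx)) hP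
        hυ (z := z) ⟨Δ, hΔ, fun g hg => ⟨_, hz g hg⟩⟩ ψ
      exact (Submodule.span_le.2 fun y hy => hPL.2.1 y hy) h5

end tower

/-- **The theorem.** -/
theorem final [IsAlgClosed W.K] (χ : Γ →* W.Kˣ) {ι : Type} (V : ι → GRep W.K Γ) {m : ℕ}
    (U : Fin m → GRep W.K Γ) (Z : GVar W Γ) (hZ : GeneratedBy U Z) (E : Set ι)
    (hV : ∀ i ∉ E, Semisimple (endo (V i)) ∧ (∀ a, Separated (V i) (U a)) ∧
      ∀ j ∉ E, j ≠ i → Separated (V i) (V j)) : Outside χ V Z E where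
  semi := by
    intro L Y hY hE i P υ hi hL hP hυ z hz
    have h1 := semi_step hυ.1 hυ.2 hz fun ψ => slices hZ hY
      (fun a => ((hV i hi).2.1 a).spl (hV i hi).1)
      (fun x hx => ((hV i hi).2.2 x.1 (hE x hx) (hL x hx)).spl (hV i hi).1) hP hυ hz ψ
    refine Submodule.span_mono ?_ h1
    rintro x ⟨u, v, hu, hv, rfl⟩
    exact ⟨u, hu, v, hv, rfl⟩
  tate := by
    intro L Y hY hL hpt
    exact tower_tate (fun i hi a => ((hV i hi).2.1 a).spl (hV i hi).1)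
      (fun i hi j hj hij => ((hV i hi).2.2 j hj hij).spl (hV i hi).1) hZ hpt hY hL

end Pool.Agent.N179.SP
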