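import Pool.Agent.N179.GR.Defs

/-!
# Representations which are separated by elements of the group: definitions
-/

set_option autoImplicit false

namespace Pool.Agent.N179.SP

open Pool.Agent.N179.GR.S

variable {K : Type} [Field K] {Γ : Type} [Group Γ]

/-- The space `s` of operators on `M` is stable, a perfect Lie algebra (with the commutator) of
dimension at least `3`, and contains no semi-invariant vectors different from `0`. -/
structure LiePiece (M : GRep K Γ) (s : Sub (endo M)) : Prop where
  stable : Stable s
  lie : ∀ x ∈ brackets s, s.Has x
  perfect : ∀ x, s.Has x → (span (brackets s)).Has x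
  three : 3 ≤ s.dim
  noSemiInv : ∀ x, s.Has x → SemiInv x → x = 0

/-- The number `μ` is an eigenvalue of `g` on the subspace `A` of `M`. -/
def EigOn {M : GRep K Γ} (g : Γ) (A : Sub M) (μ : K) : Prop :=
  ∃ x, A.Has x ∧ x ≠ 0 ∧ M.ap g x = μ • x

/-- The number `μ` is an eigenvalue of `g` on `M`. -/
def Eig (M : GRep K Γ) (g : Γ) (μ : K) : Prop := ∃ x : M.V, x ≠ 0 ∧ M.ap g x = μ • x

/-- The number `μ` is the quotient of two eigenvalues of `g` on `U`. -/
def Ratio (U : GRep K Γ) (g : Γ) (μ : K) : Prop := ∃ a b, Eig U g a ∧ Eig U g b ∧ a = μ * b

/-- For every piece `s` of `End M` there is an element `g` of the group (it may depend on `s`) which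
has an eigenvalue on `s` (for the action by conjugation) which is not a quotient of two eigenvalues
of `g` on `U`. -/
def SeparatedByElements (M U : GRep K Γ) : Prop :=
  ∀ s : Sub (endo M), LiePiece M s → ∃ (g : Γ) (μ : K), EigOn g s μ ∧ ¬ Ratio U g μ

/-- The eigenvalue `a` of `g` on the stable subspace `N` of `M` is isolated: it has multiplicity one
on `M`, and its quotients with the other eigenvalues of `g` on `M` are not quotients of eigenvalues of
`g` on `U`. -/
structure IsolatedEig (M U : GRep K Γ) (g : Γ) (N : Sub M) (a : K) : Prop where
  eig : EigOn g N a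
  one : ∀ x y, M.ap g x = a • x → x ≠ 0 → (∃ n : ℕ, ((M.act g - a • LinearMap.id : Module.End K M.V) ^ n) y = 0) →
    ∃ c : K, y = c • x
  isolated : ∀ b, Eig M g b → b ≠ a → ¬ Ratio U g (b / a)

/-- `M` is semisimple, and on every nonzero stable subspace of `M` an element of the group has an
isolated eigenvalue. (If `M` is irreducible this means: some element has an isolated
eigenvalue.) -/
def SeparatedByEigenvalues (M U : GRep K Γ) : Prop :=
  Semisimple M ∧ ∀ N : Sub M, Stable N → (∃ x, N.Has x ∧ x ≠ 0) →
    ∃ (g : Γ) (a : K), IsolatedEig M U g N a

/-- `M` is separated from `U` by elements of the group, or by isolated eigenvalues, or `End U` is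
semisimple and `M` and `U` are independent: every equivariant linear map `End M → End U` has its
values in the span of the semi-invariant vectors. -/
def Separated (M U : GRep K Γ) : Prop :=
  SeparatedByElements M U ∨ SeparatedByEigenvalues M U ∨ Semisimple (endo U) ∧ Independent M U

end Pool.Agent.N179.SP
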