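import Pool.Agent.N179.SP.Defs
import Pool.Agent.N179.GR.Fin

/-!
# Representations which are separated by elements of the group: linear algebra
-/

set_option autoImplicit false
set_option linter.unusedSectionVars false

namespace Pool.Agent.N179.SP

open Module Pool.Agent.N179.GR.S Pool.Agent.N179.GR

section Lin

variable {K : Type} [Field K] {E E' : Type} [AddCommGroup E] [Module K E]
  [AddCommGroup E'] [Module K E']

/-- an eigenvalue of a quotient is an eigenvalue -/
theorem eig_lift (hfd : FiniteDimensional K E) {A : Submodule K E} {f : E →ₗ[K] E} {f' : E' →ₗ[K] E'} {Φ : E →ₗ[K] E'}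
    (hA : ∀ x ∈ A, f x ∈ A) (hΦ : ∀ x ∈ A, Φ (f x) = f' (Φ x)) {y : E'} {μ : K} (hy : y ≠ 0)
    (hyμ : f' y = μ • y) (hyA : ∃ x ∈ A, Φ x = y) : ∃ x ∈ A, x ≠ 0 ∧ f x = μ • x := by
  by_contra hno
  push Not at hno
  obtain ⟨x₀, hx₀, rfl⟩ := hyA
  let N : Submodule K E := A ⊓ LinearMap.ker Φ
  have hg : ∀ x ∈ A, f x - μ • x ∈ A := fun x hx => A.sub_mem (hA x hx) (A.smul_mem μ hx)
  have hN : ∀ x ∈ N, f x - μ • x ∈ N := by
    rintro x ⟨hx, hxk⟩
    refine ⟨hg x hx, ?_⟩
    have h1 : Φ x = 0 := hxk
    change Φ (f x - μ • x) = 0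
    rw [map_sub, map_smul, hΦ x hx, h1, map_zero, smul_zero, sub_zero]
  let h : N →ₗ[K] N := LinearMap.restrict (f - μ • LinearMap.id) (p := N) (q := N) fun x hx => by
    simpa using hN x hx
  have hinj : Function.Injective h := by
    rw [← LinearMap.ker_eq_bot, LinearMap.ker_eq_bot']
    intro x hx
    have h1 : f (x : E) - μ • (x : E) = 0 := by
      have h2 := congrArg Subtype.val hx
      simpa [h, LinearMap.restrict_apply] using h2
    by_contra hx0
    exact hno x.1 x.2.1 (fun h => hx0 (Subtype.ext h)) (sub_eq_zero.1 h1)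
  have hsurj : Function.Surjective h := LinearMap.injective_iff_surjective.1 hinj
  have hx1 : f x₀ - μ • x₀ ∈ N := by
    refine ⟨hg x₀ hx₀, ?_⟩
    change Φ (f x₀ - μ • x₀) = 0
    rw [map_sub, map_smul, hΦ x₀ hx₀, hyμ, sub_self]
  obtain ⟨n, hn⟩ := hsurj ⟨_, hx1⟩
  have h3 : f (n : E) - μ • (n : E) = f x₀ - μ • x₀ := by
    have h2 := congrArg Subtype.val hn
    simpa [h, LinearMap.restrict_apply] using h2
  have h4 : f (x₀ - n) = μ • (x₀ - n) := by
    rw [map_sub, smul_sub, sub_eq_sub_iff_sub_eq_sub]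
    rw [h3.symm]
  by_cases h5 : x₀ - (n : E) = 0
  · rw [sub_eq_zero.1 h5] at hy
    exact hy n.2.2
  · exact hno _ (A.sub_mem hx₀ n.2.1) h5 h4

/-- the eigenvalues of the conjugation are quotients of eigenvalues -/
theorem ratio_of_conj [IsAlgClosed K] [FiniteDimensional K E] {F x : Module.End K E} {μ : K} (hx : x ≠ 0)
    (h : F * x = μ • (x * F)) : ∃ a b : K, F.HasEigenvalue a ∧ F.HasEigenvalue b ∧ a = μ * b := by
  have hpow : ∀ (b : K) (n : ℕ) (v : E),
      ((F - algebraMap K (Module.End K E) (μ * b)) ^ n) (x v) =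
        μ ^ n • x (((F - algebraMap K (Module.End K E) b) ^ n) v) := by
    intro b n
    induction n with
    | zero => intro v; simp
    | succ n ih =>
      intro v
      have h1 : (F - algebraMap K (Module.End K E) (μ * b)) (x v) =
          μ • x ((F - algebraMap K (Module.End K E) b) v) := by
        have h2 := LinearMap.congr_fun h v
        simp only [Module.End.mul_apply, LinearMap.smul_apply] at h2
        simp only [LinearMap.sub_apply, Module.algebraMap_end_apply, h2, map_sub, map_smul,
          smul_sub, smul_smul]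
      rw [pow_succ, Module.End.mul_apply, h1, map_smul, ih, pow_succ (_ - _) n,
        Module.End.mul_apply, smul_smul, ← pow_succ']
  obtain ⟨b, v, hv, hxv⟩ : ∃ b : K, ∃ v ∈ F.maxGenEigenspace b, x v ≠ 0 := by
    by_contra hno
    push Not at hno
    refine hx (LinearMap.ext fun v => ?_)
    have h1 : (⊤ : Submodule K E) ≤ LinearMap.ker x := by
      rw [← Module.End.iSup_maxGenEigenspace_eq_top F]
      exact iSup_le fun b v hv => hno b v hv
    exact h1 trivial
  have hb : F.HasEigenvalue b := by
    refine hasEigenvalue_of_max fun h => hxv ?_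
    have h1 : v ∈ (⊥ : Submodule K E) := h ▸ hv
    rw [(Submodule.mem_bot K).1 h1, map_zero]
  refine ⟨μ * b, b, ?_, hb, rfl⟩
  refine hasEigenvalue_of_max fun h => hxv ?_
  obtain ⟨n, hn⟩ := (Module.End.mem_maxGenEigenspace F b v).1 hv
  have h2 : x v ∈ F.maxGenEigenspace (μ * b) := by
    refine (Module.End.mem_maxGenEigenspace F (μ * b) (x v)).2 ⟨n, ?_⟩
    have h3 := hpow b n v
    rw [← Algebra.algebraMap_eq_smul_one]
    rw [h3]
    rw [← Algebra.algebraMap_eq_smul_one] at hn
    rw [hn, map_zero, smul_zero]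
  rw [h] at h2
  exact (Submodule.mem_bot K).1 h2

end Lin

variable {K : Type} [Field K] [CharZero K] {Γ : Type} [Group Γ]

/-- **Separation implies splitting.** -/
theorem spl_of_elements [IsAlgClosed K] {M U : GRep K Γ} (hM : Semisimple (endo M))
    (h : SeparatedByElements M U) : Spl (fl M) {fl U} := by
  by_contra hn
  obtain ⟨s, hs⟩ := exists_piece (r := M.hom) (semiS_endo hM) (T := {fl U}) (by
    rintro N rfl
    exact isFull_full _)
  have hp : Piece M U s := piece hs hn
  obtain ⟨g, μ, ⟨y, hys, hy0, hyμ⟩, hno⟩ :=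
    h s ⟨hp.stable, hp.lie, hp.perfect, hp.three, hp.noSemiInv⟩
  obtain ⟨A, Φ, hA, hΦ, himg⟩ := hp.quot
  obtain ⟨x, hxA, hx0, hxμ⟩ := eig_lift (K := K) (E := Op U) (E' := Op M) (Op.fd U)
    (A := A) (f := GR.S.conj U g) (f' := GR.S.conj M g) (Φ := Φ) (fun x hx => hA g x hx)
    (fun x hx => hΦ g x hx) (y := y) (μ := μ) hy0 hyμ ((himg y).1 hys)
  have h1 : ∀ v, (show U.V →ₗ[K] U.V from x) v = (show U.V →ₗ[K] U.V from x) v := fun _ => rfl
  have h2 : (U.hom g) * (show Module.End K U.V from x) =
      μ • ((show Module.End K U.V from x) * U.hom g) := by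
    refine LinearMap.ext fun v => ?_
    have h3 := LinearMap.congr_fun (show (show U.V →ₗ[K] U.V from GR.S.conj U g x) =
      μ • (show U.V →ₗ[K] U.V from x) from hxμ) (U.act g v)
    have h4 : U.act g⁻¹ (U.act g v) = v := by rw [← U.mul, inv_mul_cancel, U.one]
    change U.act g ((show U.V →ₗ[K] U.V from x) (U.act g⁻¹ (U.act g v))) = _ at h3
    rw [h4] at h3
    exact h3
  obtain ⟨a, b, ha, hb, hab⟩ := ratio_of_conj (F := U.hom g) hx0 h2
  obtain ⟨va, hva⟩ := ha.exists_hasEigenvector
  obtain ⟨vb, hvb⟩ := hb.exists_hasEigenvector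
  exact hno ⟨a, b, ⟨va, hva.2, hva.apply_eq_smul⟩, ⟨vb, hvb.2, hvb.apply_eq_smul⟩, hab⟩

/-- **Isolated eigenvalues.** -/
theorem elements_of_eigenvalues [IsAlgClosed K] {M U : GRep K Γ}
    (h : SeparatedByEigenvalues M U) : SeparatedByElements M U := by
  intro s hs
  by_contra hno
  push Not at hno
  have hac : ∀ (x : Op M) (v : M.V), ∀ g, (show M.V →ₗ[K] M.V from GR.S.conj M g x) (M.act g v) =
      M.act g ((show M.V →ₗ[K] M.V from x) v) := by
    intro x v g
    change M.act g ((show M.V →ₗ[K] M.V from x) (M.act g⁻¹ (M.act g v))) = _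
    rw [← M.mul, inv_mul_cancel, M.one]
  -- the space killed by `s`
  let T : Submodule K M.V :=
    { carrier := {v | ∀ x : Op M, s.Has x → (show M.V →ₗ[K] M.V from x) v = 0}
      zero_mem' := fun x _ => map_zero _
      add_mem' := fun {v w} hv hw x hx => by rw [map_add, hv x hx, hw x hx, add_zero]
      smul_mem' := fun c v hv x hx => by rw [map_smul, hv x hx, smul_zero] }
  have hT : Stable (M := M) T := by
    intro g v hv x hx
    have h1 : s.Has ((endo M).ap g⁻¹ x) := hs.stable g⁻¹ x hx
    have h2 := hac (GR.S.conj M g⁻¹ x) v g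
    rw [← GR.S.conj_mul, mul_inv_cancel, GR.S.conj_one] at h2
    change (show M.V →ₗ[K] M.V from x) (M.act g v) = 0
    rw [h2]
    exact (congrArg (M.act g) (hv _ h1)).trans (map_zero _)
  obtain ⟨N, hN, hTN⟩ := h.1 T hT
  have hTN' : IsCompl T (show Submodule K M.V from N) := hTN
  by_cases hN0 : ∃ x, N.Has x ∧ x ≠ 0
  · obtain ⟨g, a, hI⟩ := h.2 N hN hN0
    obtain ⟨x₀, hx₀N, hx₀, hx₀a⟩ := hI.eig
    have ha : a ≠ 0 := by
      rintro rfl
      apply hx₀
      have h1 : M.act g⁻¹ (M.act g x₀) = x₀ := by rw [← M.mul, inv_mul_cancel, M.one]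
      have h2 : M.act g x₀ = 0 := by
        have h3 : M.act g x₀ = (0 : K) • x₀ := hx₀a
        rw [h3, zero_smul]
      rw [← h1, h2, map_zero]
    have hfd : FiniteDimensional K (Op M) := Op.fd M
    let s' : Submodule K (Op M) := s
    have hstab : ∀ x ∈ s', GR.S.conj M g x ∈ s' := fun x hx => hs.stable g x hx
    let C : s' →ₗ[K] s' := LinearMap.restrict (GR.S.conj M g) hstab
    let Q : Submodule K s' :=
      { carrier := {y | ∃ c : K, (show M.V →ₗ[K] M.V from y.1) x₀ = c • x₀}
        zero_mem' := ⟨0, by rw [zero_smul]; rfl⟩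
        add_mem' := by
          rintro y z ⟨c, hc⟩ ⟨d, hd⟩
          refine ⟨c + d, ?_⟩
          rw [add_smul, ← hc, ← hd]
          rfl
        smul_mem' := by
          rintro r y ⟨c, hc⟩
          refine ⟨r * c, ?_⟩
          rw [mul_smul, ← hc]
          rfl }
    have hQ : Q = ⊤ := by
      rw [eq_top_iff, ← Module.End.iSup_maxGenEigenspace_eq_top C]
      refine iSup_le fun μ y hy => ?_
      by_cases hy0 : (show M.V →ₗ[K] M.V from y.1) x₀ = 0
      · exact ⟨0, by rw [zero_smul]; exact hy0⟩
      obtain ⟨n, hn⟩ := (Module.End.mem_maxGenEigenspace C μ y).1 hy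
      -- the powers
      have hpow : ∀ (n : ℕ) (y : s'), ((M.act g - (μ * a) • LinearMap.id : Module.End K M.V) ^ n)
          ((show M.V →ₗ[K] M.V from y.1) x₀) =
          a ^ n • (show M.V →ₗ[K] M.V from (((C - μ • (1 : Module.End K s')) ^ n) y).1) x₀ := by
        intro n
        induction n with
        | zero => intro y; rw [pow_zero, pow_zero, pow_zero, one_smul]; rfl
        | succ n ih =>
          intro y
          have h1 : (M.act g - (μ * a) • LinearMap.id : Module.End K M.V)
              ((show M.V →ₗ[K] M.V from y.1) x₀) =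
              a • (show M.V →ₗ[K] M.V from ((C - μ • (1 : Module.End K s')) y).1) x₀ := by
            have h2 := hac y.1 x₀ g
            have h3 : M.act g x₀ = a • x₀ := hx₀a
            rw [h3, map_smul] at h2
            have h4 : (show M.V →ₗ[K] M.V from ((C - μ • (1 : Module.End K s')) y).1) x₀ =
                (show M.V →ₗ[K] M.V from GR.S.conj M g y.1) x₀ -
                  μ • (show M.V →ₗ[K] M.V from y.1) x₀ := rfl
            rw [h4, smul_sub, h2, smul_smul, mul_comm a μ]
            rfl
          rw [pow_succ, Module.End.mul_apply, h1, map_smul, ih, pow_succ (_ - _) n,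
            Module.End.mul_apply, smul_smul, ← pow_succ']
      have hkill : ((M.act g - (μ * a) • LinearMap.id : Module.End K M.V) ^ n)
          ((show M.V →ₗ[K] M.V from y.1) x₀) = 0 := by
        rw [hpow n y]
        have h5 : ((C - μ • (1 : Module.End K s')) ^ n) y = 0 := hn
        rw [h5]
        exact smul_zero _
      by_cases hμ : μ * a = a
      · rw [hμ] at hkill
        exact hI.one x₀ _ hx₀a hx₀ ⟨n, hkill⟩
      · exfalso
        have hy1 : y ≠ 0 := by
          rintro rfl
          exact hy0 rfl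
        have h6 : Module.End.HasEigenvalue C μ := hasEigenvalue_of_max fun h7 => hy1 <| by
          have h8 : y ∈ (⊥ : Submodule K s') := h7 ▸ hy
          exact (Submodule.mem_bot K).1 h8
        obtain ⟨z, hz⟩ := h6.exists_hasEigenvector
        have h9 : Ratio U g μ := hno g μ ⟨z.1, z.2, fun h => hz.2 (Subtype.ext h),
          congrArg Subtype.val hz.apply_eq_smul⟩
        have h10 : Module.End.HasEigenvalue (M.act g : Module.End K M.V) (μ * a) := by
          refine hasEigenvalue_of_max fun h7 => hy0 ?_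
          have h8 : (show M.V →ₗ[K] M.V from y.1) x₀ ∈
              Module.End.maxGenEigenspace (R := K) (M := M.V) (M.act g) (μ * a) :=
            (Module.End.mem_maxGenEigenspace _ _ _).2 ⟨n, hkill⟩
          rw [h7] at h8
          exact (Submodule.mem_bot K).1 h8
        obtain ⟨w, hw⟩ := h10.exists_hasEigenvector
        refine hI.isolated (μ * a) ⟨w, hw.2, hw.apply_eq_smul⟩ hμ ?_
        rwa [mul_div_assoc, div_self ha, mul_one]
    have hline : ∀ y : Op M, s.Has y → ∃ c : K, (show M.V →ₗ[K] M.V from y) x₀ = c • x₀ := by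
      intro y hy
      have h1 : (⟨y, hy⟩ : s') ∈ Q := by rw [hQ]; trivial
      exact h1
    have hx₀T : x₀ ∈ T := by
      intro y hy
      have h1 : y ∈ Submodule.span K (brackets s) := hs.perfect y hy
      refine Submodule.span_induction (p := fun y _ => (show M.V →ₗ[K] M.V from y) x₀ = 0)
        ?_ rfl ?_ ?_ h1
      · rintro _ ⟨x, z, hx, hz, rfl⟩
        obtain ⟨c, hc⟩ := hline x hx
        obtain ⟨d, hd⟩ := hline z hz
        change (show M.V →ₗ[K] M.V from x) ((show M.V →ₗ[K] M.V from z) x₀) -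
          (show M.V →ₗ[K] M.V from z) ((show M.V →ₗ[K] M.V from x) x₀) = 0
        rw [hc, hd, map_smul, map_smul, hc, hd, smul_smul, smul_smul, mul_comm, sub_self]
      · intro x z _ _ hx hz
        change (show M.V →ₗ[K] M.V from x) x₀ + (show M.V →ₗ[K] M.V from z) x₀ = 0
        rw [hx, hz, add_zero]
      · intro c x _ hx
        change c • (show M.V →ₗ[K] M.V from x) x₀ = 0
        rw [hx, smul_zero]
    exact hx₀ ((Submodule.disjoint_def.1 hTN'.disjoint) x₀ hx₀T hx₀N)
  · push Not at hN0
    have h1 : (show Submodule K M.V from N) = ⊥ := by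
      rw [eq_bot_iff]
      intro x hx
      exact (Submodule.mem_bot K).2 (hN0 x hx)
    have h2 : T = ⊤ := by
      have h3 := hTN'.sup_eq_top
      rwa [h1, sup_bot_eq] at h3
    have h4 : (show Submodule K (Op M) from s) = ⊥ := by
      rw [eq_bot_iff]
      intro x hx
      refine (Submodule.mem_bot K).2 (LinearMap.ext fun v => ?_)
      have h5 : v ∈ T := by rw [h2]; trivial
      exact h5 x hx
    have h5 := hs.three
    have h6 : s.dim = 0 := by
      change finrank K (show Submodule K (Op M) from s) = 0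
      rw [h4]
      exact finrank_bot K _
    omega

theorem Separated.spl [IsAlgClosed K] {M U : GRep K Γ} (hM : Semisimple (endo M))
    (h : Separated M U) : Spl (fl M) {fl U} := by
  rcases h with h | h | ⟨h1, h2⟩
  · exact spl_of_elements hM h
  · exact spl_of_elements hM (elements_of_eigenvalues h)
  · exact spl_pair (semiS_endo hM) (semiS_endo h1) fun f hf x => h2 f hf x

end Pool.Agent.N179.SP
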